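import Mathlib
import Pool.Agent.H219R3.FT8

/-!
# Krylov transitivity of the square does not imply transitivity

There is a (homogeneous, fully transitive) torsion-free abelian group `G` such that `G ⊕ G` is
Krylov transitive, while `G` is not transitive.
-/

namespace Pool.Agent.Results.MP_b84a00_al.SquareKrylov

section Defs

/-- The `p`-height of `x`: the supremum in `ℕ∞` of all `k` with `x ∈ p^k G`. -/
noncomputable def pHeight {G : Type} [AddCommGroup G] (p : ℕ) (x : G) : ℕ∞ :=
  ⨆ k : {k : ℕ // ∃ y : G, p ^ k • y = x}, (k.1 : ℕ∞)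

/-- The characteristic of `x`: the family of its `p`-heights, `p` prime. -/
noncomputable def chi {G : Type} [AddCommGroup G] (x : G) : Nat.Primes → ℕ∞ :=
  fun p => pHeight (p : ℕ) x

/-- `G` is torsion-free. -/
def TorsionFree (G : Type) [AddCommGroup G] : Prop :=
  ∀ (n : ℕ) (x : G), n ≠ 0 → n • x = 0 → x = 0

/-- `G` is transitive: elements of equal characteristic are related by an automorphism. -/
def Transitive (G : Type) [AddCommGroup G] : Prop :=
  ∀ x y : G, chi x = chi y → ∃ f : G ≃+ G, f x = y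

/-- `G` is Krylov transitive: elements of equal characteristic are related by an endomorphism. -/
def KrylovTransitive (G : Type) [AddCommGroup G] : Prop :=
  ∀ x y : G, chi x = chi y → ∃ f : G →+ G, f x = y

end Defs

section General

variable {G : Type} [AddCommGroup G]

lemma divisible_mono {p k l : ℕ} (h : l ≤ k) {x : G} (hx : ∃ y : G, p ^ k • y = x) :
    ∃ y : G, p ^ l • y = x := by
  obtain ⟨y, rfl⟩ := hx
  obtain ⟨d, rfl⟩ := Nat.exists_eq_add_of_le h
  exact ⟨p ^ d • y, by rw [← mul_smul, ← pow_add]⟩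

lemma le_pHeight_iff {p k : ℕ} {x : G} :
    (k : ℕ∞) ≤ pHeight p x ↔ ∃ y : G, p ^ k • y = x := by
  constructor
  · intro h
    by_contra hn
    have hk : k ≠ 0 := by
      rintro rfl
      exact hn ⟨x, by simp⟩
    have h1 : pHeight p x ≤ ((k - 1 : ℕ) : ℕ∞) := by
      refine iSup_le ?_
      rintro ⟨l, hl⟩
      have : l ≤ k - 1 := by
        by_contra hlk
        exact hn (divisible_mono (by omega) hl)
      exact_mod_cast this
    have h2 := h.trans h1
    have h3 : k ≤ k - 1 := by exact_mod_cast h2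
    omega
  · intro h
    exact le_iSup (fun k : {k : ℕ // ∃ y : G, p ^ k • y = x} => (k.1 : ℕ∞)) ⟨k, h⟩

lemma chi_eq_iff {H : Type} [AddCommGroup H] {x : G} {y : H} :
    chi x = chi y ↔ ∀ p : ℕ, p.Prime → ∀ k : ℕ,
      ((∃ z : G, p ^ k • z = x) ↔ ∃ z : H, p ^ k • z = y) := by
  constructor
  · intro h p hp k
    have := congrFun h ⟨p, hp⟩
    simp only [chi] at this
    rw [← le_pHeight_iff, ← le_pHeight_iff, this]
  · intro h
    funext ⟨p, hp⟩
    show pHeight p x = pHeight p y
    apply le_antisymm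
    · refine iSup_le ?_
      rintro ⟨l, hl⟩
      exact le_pHeight_iff.2 ((h p hp l).1 hl)
    · refine iSup_le ?_
      rintro ⟨l, hl⟩
      exact le_pHeight_iff.2 ((h p hp l).2 hl)

lemma prod_divisible_iff {p k : ℕ} {x : G × G} :
    (∃ z : G × G, p ^ k • z = x) ↔ (∃ z : G, p ^ k • z = x.1) ∧ ∃ z : G, p ^ k • z = x.2 := by
  constructor
  · rintro ⟨z, rfl⟩
    exact ⟨⟨z.1, rfl⟩, ⟨z.2, rfl⟩⟩
  · rintro ⟨⟨a, ha⟩, b, hb⟩
    exact ⟨(a, b), Prod.ext ha hb⟩

end General

open Pool.Agent.H219R3.FT in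
/-- There is a torsion-free abelian group `G` such that `G ⊕ G` is Krylov transitive but `G` is
not transitive. -/
theorem result :
    ∃ (G : Type) (_ : AddCommGroup G),
      TorsionFree G ∧ KrylovTransitive (G × G) ∧ ¬ Transitive G := by
  haveI : Fact (Nat.Prime 2) := ⟨Nat.prime_two⟩
  obtain ⟨A, hXA, hdA, hA⟩ := exists_A 2
  refine ⟨RR A, inferInstance, ?_, ?_, ?_⟩
  · intro n x hn hx
    exact RR_torsionfree A n x hn hx
  · -- elements of `G ⊕ G`
    have key : ∀ (a : RR A) (y : RR A × RR A), a ≠ 0 →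
        (∀ q : ℕ, q.Prime → ∀ k : ℕ, (∃ z : RR A, q ^ k • z = a) →
          ∃ z : RR A × RR A, q ^ k • z = y) →
        ∃ f : RR A →+ RR A × RR A, f a = y := by
      intro a y ha h
      obtain ⟨f1, hf1⟩ := RR_fully A hdA a y.1 ha
        (fun q hq k hk => (prod_divisible_iff.1 (h q hq k hk)).1)
      obtain ⟨f2, hf2⟩ := RR_fully A hdA a y.2 ha
        (fun q hq k hk => (prod_divisible_iff.1 (h q hq k hk)).2)
      exact ⟨f1.prod f2, Prod.ext hf1 hf2⟩
    have hzero : ∀ a : RR A, (∀ k : ℕ, ∃ z : RR A, 2 ^ k • z = a) → a = 0 := by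
      intro a ha
      by_contra hne
      obtain ⟨h, _, h2⟩ := exists_height (a : S 2) (fun h => hne (Subtype.ext h))
      rcases (div_iff A a 2 Nat.prime_two (h + 1)).1 (ha (h + 1)) with h3 | h3
      · exact h3 rfl
      · exact h2 h3
    intro x y hxy
    rw [chi_eq_iff] at hxy
    -- comparison of the two components
    by_cases hcmp : ∀ k : ℕ, (∃ z : RR A, 2 ^ k • z = x.1) → ∃ z : RR A, 2 ^ k • z = x.2
    · by_cases hx1 : x.1 = 0
      · have hx2 : x.2 = 0 := hzero _ fun k => hcmp k ⟨0, by rw [smul_zero, hx1]⟩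
        have hx : x = 0 := Prod.ext hx1 hx2
        have hy : ∀ k : ℕ, ∃ z : RR A × RR A, 2 ^ k • z = y := fun k =>
          (hxy 2 Nat.prime_two k).1 ⟨0, by rw [smul_zero, hx]⟩
        have hy1 : y = 0 := Prod.ext (hzero _ fun k => (prod_divisible_iff.1 (hy k)).1)
          (hzero _ fun k => (prod_divisible_iff.1 (hy k)).2)
        exact ⟨0, by rw [hy1]; rfl⟩
      · obtain ⟨f, hf⟩ := key x.1 y hx1 (fun q hq k hk => by
          rw [← hxy q hq k, prod_divisible_iff]
          refine ⟨hk, ?_⟩
          by_cases hq2 : q = 2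
          · subst hq2
            exact hcmp k hk
          · exact (div_iff A x.2 q hq k).2 (Or.inl hq2))
        exact ⟨f.comp (AddMonoidHom.fst _ _), hf⟩
    · push Not at hcmp
      obtain ⟨k0, hk0, hk1⟩ := hcmp
      have hx2 : x.2 ≠ 0 := fun h => hk1 0 (by rw [smul_zero, h])
      obtain ⟨f, hf⟩ := key x.2 y hx2 (fun q hq k hk => by
          rw [← hxy q hq k, prod_divisible_iff]
          refine ⟨?_, hk⟩
          by_cases hq2 : q = 2
          · subst hq2
            rcases le_or_gt k0 k with hle | hlt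
            · obtain ⟨z, hz⟩ := divisible_mono hle hk
              exact absurd hz (hk1 z)
            · exact divisible_mono hlt.le hk0
          · exact (div_iff A x.1 q hq k).2 (Or.inl hq2))
      exact ⟨f.comp (AddMonoidHom.snd _ _), hf⟩
  · intro h
    have hX0 : Xr A hXA ≠ 0 := by
      intro h0
      have : (PowerSeries.X : S 2) = 0 := congrArg Subtype.val h0
      exact PowerSeries.X_ne_zero this
    obtain ⟨φ, hφ⟩ := h 1 (Xr A hXA) (chi_eq_iff.2 (by
      intro q hq k
      rw [div_iff A _ q hq, div_iff A _ q hq]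
      refine or_congr Iff.rfl ?_
      rw [p_pow_dvd_iff, p_pow_dvd_iff]
      constructor
      · intro h1 i
        have h2 := h1 0
        have h3 : ((1 : RR A) : S 2) = 1 := rfl
        rw [h3, PowerSeries.coeff_one, if_pos rfl] at h2
        exact h2.trans (one_dvd _)
      · intro h1 i
        have h2 := h1 1
        have h3 : ((Xr A hXA : RR A) : S 2) = PowerSeries.X := rfl
        rw [h3, PowerSeries.coeff_X, if_pos rfl] at h2
        exact h2.trans (one_dvd _)))
    exact not_transitive A hXA hA φ hφ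

end Pool.Agent.Results.MP_b84a00_al.SquareKrylov
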